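import Mathlib
import Pool.Agent.Lib_helper57.CT.Final

/-! The compatible triangulation problem, restricted to simple polygons (without holes), is
NP-hard. -/

namespace Pool.Agent.Results.MP_024a31_lc.SimplePolygonsHard

open Pool.Agent.Lib57.CT

/-- Every decision problem in NP has a polynomial time many-one reduction `f` to the compatible
triangulation problem for simple polygons; moreover every value of `f` is the code of a genuine
instance: two simple polygons with rational coordinates and the same number of vertices, listed
counterclockwise, and a number `k`. -/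
theorem result (L : N68a2faeb.DecisionProblem) (hL : L ∈ N68a2faeb.NP) :
    ∃ f : List Bool → List Bool, N68a2faeb.IsPolyTime f ∧ (∀ x, L x = CompatTri (f x)) ∧
      ∀ x, ∃ (n : ℕ) (P Q : Fin n → ℚ × ℚ) (k : ℕ), f x = encodeInst P Q k ∧ ValidInst P Q := by
  obtain ⟨f, hf, h⟩ := compatTri_hard L hL
  refine ⟨f, hf, fun x => ?_, fun x => ?_⟩
  · obtain ⟨n, P, Q, k, hfx, hv, hL⟩ := h x
    rw [Bool.eq_iff_iff, hL, hfx, CompatTri_encode hv]
  · obtain ⟨n, P, Q, k, hfx, hv, -⟩ := h x
    exact ⟨n, P, Q, k, hfx, hv⟩

end Pool.Agent.Results.MP_024a31_lc.SimplePolygonsHard
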